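import Pool.Agent.Helper28.HN.Cfg
import Pool.Agent.Helper24.HN.Defs
import Pool.Agent.Helper47.HN.MapL

/-!
# The reference configuration of the dynamics
-/

namespace Pool.Agent.Helper94.HN

open Pool.Agent.Helper28.HN Pool.Agent.Helper24.HN

variable {p : ℕ} [Fact p.Prime]

theorem norm_two (hp : p ≠ 2) : ‖(2 : ℤ_[p])‖ = 1 := by
  have h1 : ¬ (p : ℤ) ∣ (2 : ℤ) := by
    intro h
    have h2 : p ∣ 2 := by exact_mod_cast h
    exact hp ((Nat.prime_dvd_prime_iff_eq (Fact.out : p.Prime) Nat.prime_two).1 h2)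
  have h3 := PadicInt.norm_intCast_lt_one_iff (p := p) (z := 2)
  have h4 : ¬ ‖((2 : ℤ) : ℤ_[p])‖ < 1 := fun h => h1 (h3.1 h)
  have h5 : ‖((2 : ℤ) : ℤ_[p])‖ = 1 := le_antisymm (PadicInt.norm_le_one _) (not_lt.1 h4)
  simpa using h5

theorem norm_add_le' {a b : ℤ_[p]} {e : ℝ} (ha : ‖a‖ ≤ e) (hb : ‖b‖ ≤ e) : ‖a + b‖ ≤ e :=
  (IsUltrametricDist.norm_add_le_max a b).trans (max_le ha hb)

theorem norm_mul_le' (a : ℤ_[p]) {b : ℤ_[p]} {e : ℝ} (hb : ‖b‖ ≤ e) : ‖a * b‖ ≤ e := by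
  rw [norm_mul]
  calc ‖a‖ * ‖b‖ ≤ 1 * ‖b‖ := mul_le_mul_of_nonneg_right (PadicInt.norm_le_one a) (norm_nonneg b)
    _ = ‖b‖ := one_mul _
    _ ≤ e := hb

theorem norm_add_eq {a b : ℤ_[p]} (h : ‖b‖ < ‖a‖) : ‖a + b‖ = ‖a‖ := by
  rw [IsUltrametricDist.norm_add_eq_max_of_norm_ne_norm h.ne', max_eq_left h.le]

theorem unit_prod {ι : Type*} [Fintype ι] {f : ι → ℤ_[p]} (h : IsUnit (∏ i, f i)) (i : ι) :
    IsUnit (f i) :=
  isUnit_of_dvd_unit (Finset.dvd_prod_of_mem f (Finset.mem_univ i)) h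

variable {m : ℕ}

/-- The factors of `Pp` are units. -/
theorem units_of_Pp (c : Ix m → ℤ_[p]) (k : Un m → ℤ_[p]) (h : IsUnit (Pp c k)) :
    ‖(Mx c (aff fun i => k (.inl i))).det‖ = 1 ∧
    (∀ a b : Fin (m + 2), a ≠ b → ‖k (.inr a) - k (.inr b)‖ = 1) ∧
    (∀ a : Fin (m + 2), ‖(Nx c (yh c (aff fun i => k (.inl i)) (k (.inr a)))).det‖ = 1) ∧
    (∀ a : Fin (m + 2), a ≠ 0 → ‖kah c (aff fun i => k (.inl i)) (k (.inr a))‖ = 1) ∧
    (∀ a : Fin (m + 2), ‖(psP c (aff fun i => k (.inl i))).derivative.eval (k (.inr a))‖ = 1) ∧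
    (∀ a b : Fin (m + 2), a ≠ b → ¬ (a = 1 ∧ b = Fin.last (m + 1)) →
      ‖qh c (aff fun i => k (.inl i)) (xz c (fun i => k (.inl i)) (k (.inr a))) (k (.inr b))‖ = 1) ∧
    ‖(Vm c k).det‖ = 1 := by
  unfold Pp at h
  rw [IsUnit.mul_iff, IsUnit.mul_iff, IsUnit.mul_iff, IsUnit.mul_iff, IsUnit.mul_iff,
    IsUnit.mul_iff] at h
  obtain ⟨⟨⟨⟨⟨⟨h1, h2⟩, h3⟩, h4⟩, h5⟩, h6⟩, h7⟩ := h
  refine ⟨PadicInt.isUnit_iff.1 h1, fun a b hab => ?_, fun a => PadicInt.isUnit_iff.1 (unit_prod h3 a),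
    fun a ha => ?_, fun a => PadicInt.isUnit_iff.1 (unit_prod h5 a), fun a b hab hn => ?_,
    PadicInt.isUnit_iff.1 h7⟩
  · have h8 := unit_prod (unit_prod h2 a) b
    rw [if_neg hab] at h8
    exact PadicInt.isUnit_iff.1 h8
  · obtain ⟨b, rfl⟩ := Fin.exists_succ_eq.2 ha
    exact PadicInt.isUnit_iff.1 (unit_prod h4 b)
  · have h8 := unit_prod (unit_prod h6 a) b
    rw [if_neg (not_or.2 ⟨hab, hn⟩)] at h8
    exact PadicInt.isUnit_iff.1 h8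

/-- The form is small at the base point. -/
theorem norm_Fh_le (c : Ix m → ℤ_[p]) (k : Un m → ℤ_[p]) (h : Cfg c k) :
    ‖Ch c (aff fun i => k (.inl i))‖ ≤ (p : ℝ) ^ (-2 : ℤ) ∧
    ∀ z, ‖Fh c (aff fun i => k (.inl i)) z‖ ≤ (p : ℝ) ^ (-2 : ℤ) := by
  have h1 : Ch c (aff fun i => k (.inl i)) = -(k (.inr 0) ^ 2 * Ah c (aff fun i => k (.inl i)) +
      (2 * k (.inr 0)) * Bh c (aff fun i => k (.inl i))) := by
    have h2 := h.F0
    rw [Pool.Agent.Helper47.HN.Fh_eq] at h2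
    linear_combination h2
  have h3 : ‖Ch c (aff fun i => k (.inl i))‖ ≤ (p : ℝ) ^ (-2 : ℤ) := by
    rw [h1, norm_neg]
    exact norm_add_le' (norm_mul_le' _ h.hA) (norm_mul_le' _ h.hB)
  refine ⟨h3, fun z => ?_⟩
  rw [Pool.Agent.Helper47.HN.Fh_eq]
  have h4 : Ah c (aff fun i => k (.inl i)) * z ^ 2 + 2 * Bh c (aff fun i => k (.inl i)) * z +
      Ch c (aff fun i => k (.inl i)) = z ^ 2 * Ah c (aff fun i => k (.inl i)) +
      (2 * z) * Bh c (aff fun i => k (.inl i)) + Ch c (aff fun i => k (.inl i)) := by ring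
  rw [h4]
  exact norm_add_le' (norm_add_le' (norm_mul_le' _ h.hA) (norm_mul_le' _ h.hB)) h3

theorem exists_ref (hp : p ≠ 2) (hm : 4 ≤ m) (c : Ix m → ℤ_[p])
    (k : Un m → ℤ_[p]) (h : Cfg c k) (L : Loc p (m + 1))
    (hA : ∀ x, L.A x = Ah c (aff x)) (hB : ∀ x, L.B x = 2 * Bh c (aff x))
    (hC : ∀ x, L.C x = Ch c (aff x)) (hxi : ∀ x z, L.xi x z = vh c (yh c (aff x) z))
    (hpsi : ∀ x z, L.psi x z = 2 * psh c (aff x) z) (hkap : ∀ x z, L.kap x z = kah c (aff x) z)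
    (hsl : ∀ x z, L.sl x z z = 2 * (psP c (aff x)).derivative.eval z)
    (hd : ∀ x v, ∃ d, (∀ z, (Mx c (aff x)).det * L.dF x v z =
      qh c (aff x) (Fin.cons 0 v) z + 2 * d * Fh c (aff x) z) ∧
      (Mx c (aff x)).det * L.dA x v = qa c (aff x) (Fin.cons 0 v) + 2 * d * Ah c (aff x)) :
    ∃ R : Ref L (Fin (m + 2)), R.u0 = (fun i => k (.inl i)) ∧
      R.z = (fun a => k (.inr a)) ∧ R.y = 0 ∧ R.j = Fin.last (m + 1) ∧ R.m = 1 ∧ R.l = 2 := by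
  obtain ⟨hD, hz, hN, hk, hps, hq, hV⟩ := units_of_Pp c k h.hP
  obtain ⟨hCs, hFs⟩ := norm_Fh_le c k h
  have hp0 : (0 : ℝ) < p := by exact_mod_cast (Fact.out : p.Prime).pos
  have hp1 : (1 : ℝ) < p := by exact_mod_cast (Fact.out : p.Prime).one_lt
  have hp12 : (p : ℝ) ^ (-2 : ℤ) < (p : ℝ) ^ (-1 : ℤ) := zpow_lt_zpow_right₀ hp1 (by norm_num)
  have hp01 : (p : ℝ) ^ (-1 : ℤ) < 1 := zpow_lt_one_of_neg₀ hp1 (by norm_num)
  have hxz : ∀ a : Fin (m + 2), (Fin.cons 0 (L.xi (fun i => k (.inl i)) (k (.inr a))) : I m → ℤ_[p]) =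
      xz c (fun i => k (.inl i)) (k (.inr a)) := by
    intro a
    rw [hxi]
    rfl
  have hFF : ∀ z, L.F (fun i => k (.inl i)) z = Fh c (aff fun i => k (.inl i)) z := by
    intro z
    rw [Pool.Agent.Helper47.HN.Fh_eq, Loc.F, hA, hB, hC]
  have hmul : ∀ a : ℤ_[p], ‖(Mx c (aff fun i => k (.inl i))).det * a‖ = ‖a‖ := by
    intro a
    rw [norm_mul, hD, one_mul]
  have hsm : ∀ (d z : ℤ_[p]), ‖2 * d * Fh c (aff fun i => k (.inl i)) z‖ ≤ (p : ℝ) ^ (-2 : ℤ) :=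
    fun d z => norm_mul_le' _ (hFs z)
  have hz' : ∀ a b : Fin (m + 2), (a : ℕ) ≠ b → a ≠ b := fun a b hab h' => hab (by rw [h'])
  have v1 : ((1 : Fin (m + 2)) : ℕ) = 1 := by
    simp
  have v2 : ((2 : Fin (m + 2)) : ℕ) = 2 := by
    have : (2 : Fin (m + 2)) = ⟨2, by omega⟩ := by
      apply Fin.ext
      simp
      omega
    rw [this]
  refine ⟨⟨fun i => k (.inl i), fun a => k (.inr a), 0, Fin.last (m + 1), 1, 2, ?_, ?_, ?_, ?_, ?_, ?_,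
    hz, ?_, ?_, ?_, ?_, ?_, ?_, ?_, ?_, ?_⟩, rfl, rfl, rfl, rfl, rfl, rfl⟩
  · refine hz' _ _ ?_
    rw [v1, Fin.val_last]
    omega
  · refine hz' _ _ ?_
    rw [v1, v2]
    omega
  · refine hz' _ _ ?_
    rw [v2, Fin.val_last]
    omega
  · refine hz' _ _ ?_
    rw [Fin.val_last, Fin.val_zero]
    omega
  · refine hz' _ _ ?_
    rw [v1, Fin.val_zero]
    omega
  · refine hz' _ _ ?_
    rw [v2, Fin.val_zero]
    omega
  · intro a _
    rw [hpsi, h.psi, mul_zero]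
  · intro a _
    rw [hsl, norm_mul, norm_two hp, one_mul]
    exact hps a
  · intro a ha
    rw [hkap]
    exact hk a ha
  · intro a b hab hn
    obtain ⟨d, hd1, -⟩ := hd (fun i => k (.inl i)) (L.xi (fun i => k (.inl i)) (k (.inr b)))
    have h1 := hd1 (k (.inr a))
    rw [hxz] at h1
    rw [← hmul, h1]
    have h2 : ‖qh c (aff fun i => k (.inl i)) (xz c (fun i => k (.inl i)) (k (.inr b)))
        (k (.inr a))‖ = 1 := by
      refine hq b a (Ne.symm hab) ?_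
      rintro ⟨h3, h4⟩
      rcases hn with h5 | h5
      · exact h5 h4
      · exact h5 h3
    rw [norm_add_eq, h2]
    rw [h2]
    exact (hsm _ _).trans_lt (hp12.trans hp01)
  · obtain ⟨d, hd1, -⟩ := hd (fun i => k (.inl i)) (L.xi (fun i => k (.inl i)) (k (.inr 1)))
    have h1 := hd1 (k (.inr (Fin.last (m + 1))))
    rw [hxz] at h1
    rw [← hmul, h1, norm_add_eq, h.hq]
    rw [h.hq]
    exact (hsm _ _).trans_lt hp12
  · rw [hA]
    exact h.hA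
  · rw [hB]
    exact norm_mul_le' _ h.hB
  · rw [hC]
    exact hCs
  · obtain ⟨d, hd1, hd2⟩ := hd (fun i => k (.inl i)) (L.xi (fun i => k (.inl i)) (k (.inr 0)))
    have h1 := hd1 (k (.inr (Fin.last (m + 1))))
    rw [hxz] at h1 hd2
    rw [← hmul, ← h.hst, hFF, hA]
    congr 1
    linear_combination (Ah c (aff fun i => k (.inl i))) * h1 -
      Fh c (aff fun i => k (.inl i)) (k (.inr (Fin.last (m + 1)))) * hd2

end Pool.Agent.Helper94.HN
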