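import Pool.Agent.Helper94.HN.Loc
import Pool.Agent.Helper47.HN.MapL

/-!
# Directional derivatives of the local data
-/

namespace Pool.Agent.Helper94.HN

open Pool.Agent.Helper28.HN Pool.Agent.Helper24.HN

variable {p : ℕ} [Fact p.Prime] {m : ℕ}

/-- Directional derivatives of polynomials. -/
theorem deriv_line {R : Type*} [CommRing R] {n : ℕ} (P : MvPolynomial (Fin n) R) (x v : Fin n → R) :
    ((MvPolynomial.aeval (fun i => Polynomial.C (x i) + Polynomial.X * Polynomial.C (v i)) P :
      Polynomial R).derivative.eval 0 = ∑ i, MvPolynomial.eval x (MvPolynomial.pderiv i P) * v i) ∧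
    (MvPolynomial.aeval (fun i => Polynomial.C (x i) + Polynomial.X * Polynomial.C (v i)) P :
      Polynomial R).eval 0 = MvPolynomial.eval x P := by
  induction P using MvPolynomial.induction_on with
  | C a =>
    refine ⟨?_, ?_⟩
    · rw [MvPolynomial.aeval_C, ← Polynomial.C_eq_algebraMap, Polynomial.derivative_C, Polynomial.eval_zero]
      refine (Finset.sum_eq_zero fun i _ => ?_).symm
      rw [MvPolynomial.pderiv_C, map_zero, zero_mul]
    · rw [MvPolynomial.aeval_C, ← Polynomial.C_eq_algebraMap, Polynomial.eval_C, MvPolynomial.eval_C]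
  | add P Q hP hQ =>
    refine ⟨?_, ?_⟩
    · rw [map_add, Polynomial.derivative_add, Polynomial.eval_add, hP.1, hQ.1, ← Finset.sum_add_distrib]
      refine Finset.sum_congr rfl fun i _ => ?_
      rw [map_add, map_add, add_mul]
    · rw [map_add, Polynomial.eval_add, hP.2, hQ.2, map_add]
  | mul_X P j hP =>
    refine ⟨?_, ?_⟩
    · rw [map_mul, MvPolynomial.aeval_X, Polynomial.derivative_mul, Polynomial.eval_add,
        Polynomial.eval_mul, Polynomial.eval_mul, hP.1, hP.2]
      have h1 : ∀ i, MvPolynomial.eval x (MvPolynomial.pderiv i (P * MvPolynomial.X j)) * v i =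
          MvPolynomial.eval x (MvPolynomial.pderiv i P) * v i * x j +
            if j = i then MvPolynomial.eval x P * v j else 0 := by
        intro i
        rw [MvPolynomial.pderiv_mul, map_add, map_mul, map_mul, MvPolynomial.eval_X, add_mul]
        by_cases h : j = i
        · subst h
          rw [MvPolynomial.pderiv_X_self, map_one, if_pos rfl]
          ring
        · rw [MvPolynomial.pderiv_X_of_ne h, map_zero, if_neg h]
          ring
      rw [Finset.sum_congr rfl fun i _ => h1 i, Finset.sum_add_distrib, ← Finset.sum_mul,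
        Finset.sum_ite_eq]
      simp
    · rw [map_mul, MvPolynomial.aeval_X, Polynomial.eval_mul, hP.2, map_mul, MvPolynomial.eval_X]
      simp

/-- The point of the line in the chart. -/
theorem aff_line (x v : Fin (m + 1) → ℤ_[p]) :
    (fun i => MvPolynomial.aeval (fun i => Polynomial.C (x i) + Polynomial.X * Polynomial.C (v i))
      ((aff MvPolynomial.X : I m → MvPolynomial (Fin (m + 1)) ℤ_[p]) i)) =
      fun i => Polynomial.C (aff x i) + Polynomial.X * Polynomial.C ((Fin.cons 0 v : I m → ℤ_[p]) i) := by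
  funext i
  refine Fin.cases ?_ (fun i => ?_) i
  · simp [aff]
  · simp [aff]

theorem dA_line (c : Ix m → ℤ_[p]) (x v : Fin (m + 1) → ℤ_[p]) :
    (Ah (fun e => Polynomial.C (c e)) (fun i => Polynomial.C (aff x i) +
      Polynomial.X * Polynomial.C ((Fin.cons 0 v : I m → ℤ_[p]) i))).derivative.eval 0 =
      (loc c).dA x v := by
  rw [loc_dA, dP_apply, ← (deriv_line (AP c) x v).1]
  have h := map_Ah (MvPolynomial.aeval (R := ℤ_[p])
    (fun i => Polynomial.C (x i) + Polynomial.X * Polynomial.C (v i)) :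
      MvPolynomial (Fin (m + 1)) ℤ_[p] →ₐ[ℤ_[p]] Polynomial ℤ_[p]).toRingHom
    (fun e => MvPolynomial.C (c e)) (aff MvPolynomial.X)
  have h' : MvPolynomial.aeval (fun i => Polynomial.C (x i) + Polynomial.X * Polynomial.C (v i)) (AP c) =
      Ah (fun e => Polynomial.C (c e)) (fun i => Polynomial.C (aff x i) +
        Polynomial.X * Polynomial.C ((Fin.cons 0 v : I m → ℤ_[p]) i)) := by
    rw [← aff_line]
    refine h.trans ?_
    congr 1
    funext e
    exact MvPolynomial.aeval_C _ _
  rw [h']

theorem dB_line (c : Ix m → ℤ_[p]) (x v : Fin (m + 1) → ℤ_[p]) :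
    (2 * Bh (fun e => Polynomial.C (c e)) (fun i => Polynomial.C (aff x i) +
      Polynomial.X * Polynomial.C ((Fin.cons 0 v : I m → ℤ_[p]) i))).derivative.eval 0 =
      (loc c).dB x v := by
  rw [loc_dB, dP_apply, ← (deriv_line (BP c) x v).1]
  have h := map_Bh (MvPolynomial.aeval (R := ℤ_[p])
    (fun i => Polynomial.C (x i) + Polynomial.X * Polynomial.C (v i)) :
      MvPolynomial (Fin (m + 1)) ℤ_[p] →ₐ[ℤ_[p]] Polynomial ℤ_[p]).toRingHom
    (fun e => MvPolynomial.C (c e)) (aff MvPolynomial.X)
  have h' : MvPolynomial.aeval (fun i => Polynomial.C (x i) + Polynomial.X * Polynomial.C (v i))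
      (Bh (fun e => MvPolynomial.C (c e)) (aff MvPolynomial.X)) =
      Bh (fun e => Polynomial.C (c e)) (fun i => Polynomial.C (aff x i) +
        Polynomial.X * Polynomial.C ((Fin.cons 0 v : I m → ℤ_[p]) i)) := by
    rw [← aff_line]
    refine h.trans ?_
    congr 1
    funext e
    exact MvPolynomial.aeval_C _ _
  have h'' : MvPolynomial.aeval (fun i => Polynomial.C (x i) + Polynomial.X * Polynomial.C (v i))
      (BP c) =
      2 * Bh (fun e => Polynomial.C (c e)) (fun i => Polynomial.C (aff x i) +
        Polynomial.X * Polynomial.C ((Fin.cons 0 v : I m → ℤ_[p]) i)) := by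
    rw [BP, map_mul, h', map_ofNat]
  rw [h'']

theorem dC_line (c : Ix m → ℤ_[p]) (x v : Fin (m + 1) → ℤ_[p]) :
    (Ch (fun e => Polynomial.C (c e)) (fun i => Polynomial.C (aff x i) +
      Polynomial.X * Polynomial.C ((Fin.cons 0 v : I m → ℤ_[p]) i))).derivative.eval 0 =
      (loc c).dC x v := by
  rw [loc_dC, dP_apply, ← (deriv_line (CP c) x v).1]
  have h := map_Ch (MvPolynomial.aeval (R := ℤ_[p])
    (fun i => Polynomial.C (x i) + Polynomial.X * Polynomial.C (v i)) :
      MvPolynomial (Fin (m + 1)) ℤ_[p] →ₐ[ℤ_[p]] Polynomial ℤ_[p]).toRingHom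
    (fun e => MvPolynomial.C (c e)) (aff MvPolynomial.X)
  have h' : MvPolynomial.aeval (fun i => Polynomial.C (x i) + Polynomial.X * Polynomial.C (v i)) (CP c) =
      Ch (fun e => Polynomial.C (c e)) (fun i => Polynomial.C (aff x i) +
        Polynomial.X * Polynomial.C ((Fin.cons 0 v : I m → ℤ_[p]) i)) := by
    rw [← aff_line]
    refine h.trans ?_
    congr 1
    funext e
    exact MvPolynomial.aeval_C _ _
  rw [h']

theorem dF_line (c : Ix m → ℤ_[p]) (x v : Fin (m + 1) → ℤ_[p]) (z : ℤ_[p]) :
    (Fh (fun e => Polynomial.C (c e)) (fun i => Polynomial.C (aff x i) +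
      Polynomial.X * Polynomial.C ((Fin.cons 0 v : I m → ℤ_[p]) i)) (Polynomial.C z)).derivative.eval 0 =
      (loc c).dF x v z := by
  have h : (loc c).dF x v z = (loc c).dA x v * z ^ 2 + (loc c).dB x v * z + (loc c).dC x v := rfl
  rw [h, Pool.Agent.Helper47.HN.Fh_eq, ← dA_line, ← dB_line, ← dC_line]
  have h2 : (Polynomial.C z : Polynomial ℤ_[p]) ^ 2 = Polynomial.C (z ^ 2) := by rw [map_pow]
  have h4 : ∀ (P : Polynomial ℤ_[p]) (a : ℤ_[p]), (P * Polynomial.C a).derivative.eval 0 =
      P.derivative.eval 0 * a := by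
    intro P a
    rw [Polynomial.derivative_mul, Polynomial.derivative_C, mul_zero, add_zero, Polynomial.eval_mul,
      Polynomial.eval_C]
  rw [h2, Polynomial.derivative_add, Polynomial.derivative_add, Polynomial.eval_add,
    Polynomial.eval_add, h4, h4]

end Pool.Agent.Helper94.HN
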