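import Pool.Agent.Helper24.HN.Defs
import Pool.Agent.Helper45.XN.Ball

/-!
# Roots in balls and Lipschitz bounds for polynomials over the `p`-adic integers
-/

namespace Pool.Agent.Helper94.HN

open Pool.Agent.Helper24.HN

variable {p : ℕ} [Fact p.Prime]

/-- Approximate zeros of functions of unit slope on a ball. -/
theorem ball_root (f : ℤ_[p] → ℤ_[p]) (a c : ℤ_[p]) (hc : ‖c‖ = 1)
    (h0 : ‖f a‖ ≤ (p : ℝ) ^ (-2 : ℤ))
    (hs : ∀ z w, ‖z - a‖ ≤ (p : ℝ) ^ (-2 : ℤ) → ‖w - a‖ ≤ (p : ℝ) ^ (-2 : ℤ) →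
      ‖f z - f w - c * (z - w)‖ ≤ (p : ℝ) ^ (-1 : ℤ) * ‖z - w‖) :
    ∃ z, ‖z - a‖ ≤ (p : ℝ) ^ (-2 : ℤ) ∧ f z = 0 := by
  obtain ⟨z, hz, hz', -⟩ := Pool.Agent.Helper45.XN.exists_root_of_slope f a c ((p : ℝ) ^ (-2 : ℤ))
    (by positivity) hc (by simpa only [zpow_neg_one] using hs) h0
  exact ⟨z, hz, hz'⟩

/-- Polynomials are Lipschitz. -/
theorem poly_lip {σ : Type*} [Fintype σ] (P : MvPolynomial σ ℤ_[p]) (x x' : σ → ℤ_[p]) :
    ‖MvPolynomial.eval x P - MvPolynomial.eval x' P‖ ≤ ‖x - x'‖ :=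
  Pool.Agent.Helper45.XN.norm_eval_sub_le P x x'

/-- Second order. -/
theorem poly_lip2 {σ : Type*} [Fintype σ] (P : MvPolynomial σ ℤ_[p]) (x h : σ → ℤ_[p]) :
    ‖MvPolynomial.eval (x + h) P - MvPolynomial.eval x P -
      ∑ i, MvPolynomial.eval x (MvPolynomial.pderiv i P) * h i‖ ≤ ‖h‖ ^ 2 :=
  Pool.Agent.Helper45.XN.norm_taylor_le P x h

/-- The norm of a function on a sum of two index sets. -/
theorem norm_sumElim_le {σ τ : Type*} [Fintype σ] [Fintype τ] (f : σ → ℤ_[p]) (g : τ → ℤ_[p]) :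
    ‖(Sum.elim f g : σ ⊕ τ → ℤ_[p])‖ ≤ max ‖f‖ ‖g‖ := by
  refine (pi_norm_le_iff_of_nonneg (le_max_of_le_left (norm_nonneg _))).2 ?_
  rintro (i | i)
  · exact le_max_of_le_left (norm_le_pi_norm f i)
  · exact le_max_of_le_right (norm_le_pi_norm g i)

/-- Polynomials in two groups of variables are Lipschitz. -/
theorem poly_lip_sum {σ τ : Type*} [Fintype σ] [Fintype τ] (P : MvPolynomial (σ ⊕ τ) ℤ_[p])
    (x x' : σ → ℤ_[p]) (y y' : τ → ℤ_[p]) :
    ‖MvPolynomial.eval (Sum.elim x y) P - MvPolynomial.eval (Sum.elim x' y') P‖ ≤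
      max ‖x - x'‖ ‖y - y'‖ := by
  refine (poly_lip P _ _).trans ?_
  have h : (Sum.elim x y : σ ⊕ τ → ℤ_[p]) - Sum.elim x' y' = Sum.elim (x - x') (y - y') := by
    funext i
    rcases i with i | i <;> rfl
  rw [h]
  exact norm_sumElim_le _ _

/-- Polynomials in a group of variables and one more variable are Lipschitz. -/
theorem poly_lip_option {σ : Type*} [Fintype σ] (P : MvPolynomial (Option σ) ℤ_[p])
    (x x' : σ → ℤ_[p]) (z z' : ℤ_[p]) :
    ‖MvPolynomial.eval (fun i => Option.elim i z x) P -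
      MvPolynomial.eval (fun i => Option.elim i z' x') P‖ ≤ max ‖x - x'‖ ‖z - z'‖ := by
  refine (poly_lip P _ _).trans ?_
  refine (pi_norm_le_iff_of_nonneg (le_max_of_le_left (norm_nonneg _))).2 ?_
  rintro (_ | i)
  · exact le_max_right _ _
  · exact le_max_of_le_left (norm_le_pi_norm (x - x') i)

/-- The derivative of a polynomial as a linear map. -/
noncomputable def dP {n : ℕ} (P : MvPolynomial (Fin n) ℤ_[p]) (x : V p n) : V p n →ₗ[ℤ_[p]] ℤ_[p] where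
  toFun v := ∑ i, MvPolynomial.eval x (MvPolynomial.pderiv i P) * v i
  map_add' v w := by
    rw [← Finset.sum_add_distrib]
    exact Finset.sum_congr rfl fun i _ => by rw [Pi.add_apply, mul_add]
  map_smul' a v := by
    rw [RingHom.id_apply, smul_eq_mul, Finset.mul_sum]
    exact Finset.sum_congr rfl fun i _ => by rw [Pi.smul_apply, smul_eq_mul]; ring

theorem dP_apply {n : ℕ} (P : MvPolynomial (Fin n) ℤ_[p]) (x v : V p n) :
    dP P x v = ∑ i, MvPolynomial.eval x (MvPolynomial.pderiv i P) * v i := rfl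

theorem dP_lip {n : ℕ} (P : MvPolynomial (Fin n) ℤ_[p]) (x h v : V p n) :
    ‖dP P (x + h) v - dP P x v‖ ≤ ‖h‖ * ‖v‖ :=
  Pool.Agent.Helper45.XN.norm_deriv_sub_le P x h v

theorem dP_taylor {n : ℕ} (P : MvPolynomial (Fin n) ℤ_[p]) (x h : V p n) :
    ‖MvPolynomial.eval (x + h) P - MvPolynomial.eval x P - dP P x h‖ ≤ ‖h‖ ^ 2 :=
  poly_lip2 P x h

end Pool.Agent.Helper94.HN
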