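import Pool.Agent.Helper94.HN.Nat
import Pool.Agent.Helper94.HN.Lip

/-!
# The local data of the chart
-/

namespace Pool.Agent.Helper94.HN

open Pool.Agent.Helper28.HN Pool.Agent.Helper24.HN

variable {p : ℕ} [Fact p.Prime] {m : ℕ}

/-- The leading coefficient as a polynomial. -/
noncomputable def AP (c : Ix m → ℤ_[p]) : MvPolynomial (Fin (m + 1)) ℤ_[p] :=
  Ah (fun e => MvPolynomial.C (c e)) (aff MvPolynomial.X)

/-- The middle coefficient as a polynomial. -/
noncomputable def BP (c : Ix m → ℤ_[p]) : MvPolynomial (Fin (m + 1)) ℤ_[p] :=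
  2 * Bh (fun e => MvPolynomial.C (c e)) (aff MvPolynomial.X)

/-- The constant coefficient as a polynomial. -/
noncomputable def CP (c : Ix m → ℤ_[p]) : MvPolynomial (Fin (m + 1)) ℤ_[p] :=
  Ch (fun e => MvPolynomial.C (c e)) (aff MvPolynomial.X)

theorem eval_aff (x : Fin (m + 1) → ℤ_[p]) :
    (fun i => MvPolynomial.eval x ((aff MvPolynomial.X : I m → MvPolynomial (Fin (m + 1)) ℤ_[p]) i)) =
      aff x := by
  rw [map_aff]
  simp only [MvPolynomial.eval_X]

theorem eval_AP (c : Ix m → ℤ_[p]) (x : Fin (m + 1) → ℤ_[p]) :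
    MvPolynomial.eval x (AP c) = Ah c (aff x) := by
  rw [AP, map_Ah]
  simp only [MvPolynomial.eval_C, eval_aff]

theorem eval_BP (c : Ix m → ℤ_[p]) (x : Fin (m + 1) → ℤ_[p]) :
    MvPolynomial.eval x (BP c) = 2 * Bh c (aff x) := by
  rw [BP, map_mul, map_Bh, map_ofNat]
  simp only [MvPolynomial.eval_C, eval_aff]

theorem eval_CP (c : Ix m → ℤ_[p]) (x : Fin (m + 1) → ℤ_[p]) :
    MvPolynomial.eval x (CP c) = Ch c (aff x) := by
  rw [CP, map_Ch]
  simp only [MvPolynomial.eval_C, eval_aff]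

/-- The point of the line over the generic point. -/
noncomputable def yP (c : Ix m → ℤ_[p]) : I m → MvPolynomial (Option (Fin (m + 1))) ℤ_[p] :=
  yh (fun e => MvPolynomial.C (c e)) (aff fun i => MvPolynomial.X (some i)) (MvPolynomial.X none)

theorem eval_aff' (x : Fin (m + 1) → ℤ_[p]) (z : ℤ_[p]) :
    (fun i => MvPolynomial.eval (fun i => Option.elim i z x)
      ((aff (fun i => MvPolynomial.X (some i)) :
        I m → MvPolynomial (Option (Fin (m + 1))) ℤ_[p]) i)) = aff x := by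
  rw [map_aff]
  simp only [MvPolynomial.eval_X, Option.elim]

/-- The direction as a polynomial. -/
noncomputable def xiP (c : Ix m → ℤ_[p]) (i : Fin (m + 1)) :
    MvPolynomial (Option (Fin (m + 1))) ℤ_[p] :=
  vh (fun e => MvPolynomial.C (c e)) (yP c) i

theorem eval_yP (c : Ix m → ℤ_[p]) (x : Fin (m + 1) → ℤ_[p]) (z : ℤ_[p]) :
    (fun i => MvPolynomial.eval (fun i => Option.elim i z x) (yP c i)) = yh c (aff x) z := by
  rw [yP, map_yh, eval_aff']
  simp only [MvPolynomial.eval_X, MvPolynomial.eval_C, Option.elim]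

theorem eval_xiP (c : Ix m → ℤ_[p]) (x : Fin (m + 1) → ℤ_[p]) (z : ℤ_[p]) (i : Fin (m + 1)) :
    MvPolynomial.eval (fun i => Option.elim i z x) (xiP c i) = vh c (yh c (aff x) z) i := by
  have h := congrFun (map_vh (MvPolynomial.eval (fun i => Option.elim i z x))
    (fun e => MvPolynomial.C (c e)) (yP c)) i
  rw [eval_yP] at h
  simp only [MvPolynomial.eval_C] at h
  exact h

/-- The linear coefficient as a polynomial. -/
noncomputable def psiP (c : Ix m → ℤ_[p]) : MvPolynomial (Option (Fin (m + 1))) ℤ_[p] :=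
  2 * psh (fun e => MvPolynomial.C (c e)) (aff fun i => MvPolynomial.X (some i))
    (MvPolynomial.X none)

theorem eval_psiP (c : Ix m → ℤ_[p]) (x : Fin (m + 1) → ℤ_[p]) (z : ℤ_[p]) :
    MvPolynomial.eval (fun i => Option.elim i z x) (psiP c) = 2 * psh c (aff x) z := by
  rw [psiP, map_mul, map_psh, map_ofNat, eval_aff']
  simp only [MvPolynomial.eval_C, MvPolynomial.eval_X, Option.elim]

/-- The quadratic coefficient as a polynomial. -/
noncomputable def kapP (c : Ix m → ℤ_[p]) : MvPolynomial (Option (Fin (m + 1))) ℤ_[p] :=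
  kah (fun e => MvPolynomial.C (c e)) (aff fun i => MvPolynomial.X (some i)) (MvPolynomial.X none)

theorem eval_kapP (c : Ix m → ℤ_[p]) (x : Fin (m + 1) → ℤ_[p]) (z : ℤ_[p]) :
    MvPolynomial.eval (fun i => Option.elim i z x) (kapP c) = kah c (aff x) z := by
  rw [kapP, map_kah, eval_aff']
  simp only [MvPolynomial.eval_C, MvPolynomial.eval_X, Option.elim]

/-- `psP` over the generic point, with two more variables. -/
noncomputable def gP (c : Ix m → ℤ_[p]) : Polynomial (MvPolynomial (Fin (m + 1) ⊕ Fin 2) ℤ_[p]) :=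
  psP (fun e => MvPolynomial.C (c e)) (aff fun i => MvPolynomial.X (.inl i))

/-- The difference quotient of `psP`. -/
noncomputable def slP (c : Ix m → ℤ_[p]) : MvPolynomial (Fin (m + 1) ⊕ Fin 2) ℤ_[p] :=
  ((gP c).evalSubFactor (MvPolynomial.X (.inr 0)) (MvPolynomial.X (.inr 1))).1

/-- Evaluation. -/
noncomputable def ev (x : Fin (m + 1) → ℤ_[p]) (z w : ℤ_[p]) :
    MvPolynomial (Fin (m + 1) ⊕ Fin 2) ℤ_[p] →+* ℤ_[p] :=
  MvPolynomial.eval (Sum.elim x ![z, w])

theorem map_gP (c : Ix m → ℤ_[p]) (x : Fin (m + 1) → ℤ_[p]) (z w : ℤ_[p]) :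
    (gP c).map (ev x z w) = psP c (aff x) := by
  rw [gP, psP_map, map_aff]
  simp only [ev, MvPolynomial.eval_C, MvPolynomial.eval_X, Sum.elim_inl]

theorem ev_z (x : Fin (m + 1) → ℤ_[p]) (z w : ℤ_[p]) :
    ev x z w (MvPolynomial.X (.inr 0)) = z := by
  simp [ev]

theorem ev_w (x : Fin (m + 1) → ℤ_[p]) (z w : ℤ_[p]) :
    ev x z w (MvPolynomial.X (.inr 1)) = w := by
  simp [ev]

theorem slP_spec (c : Ix m → ℤ_[p]) (x : Fin (m + 1) → ℤ_[p]) (z w : ℤ_[p]) :
    psh c (aff x) z - psh c (aff x) w = ev x z w (slP c) * (z - w) := by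
  have h := congrArg (ev x z w)
    ((gP c).evalSubFactor (MvPolynomial.X (.inr 0)) (MvPolynomial.X (.inr 1))).2
  have h1 : ∀ a, ev x z w ((gP c).eval a) = (psP c (aff x)).eval (ev x z w a) := by
    intro a
    rw [← map_gP c x z w, Polynomial.eval_map, Polynomial.eval₂_hom]
  rw [map_sub, h1, h1, ev_z, ev_w, psP_eval, psP_eval, map_mul, map_sub, ev_z, ev_w] at h
  exact h

theorem slP_diag (c : Ix m → ℤ_[p]) (x : Fin (m + 1) → ℤ_[p]) (z : ℤ_[p]) :
    ev x z z (slP c) = (psP c (aff x)).derivative.eval z := by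
  set a : MvPolynomial (Fin (m + 1) ⊕ Fin 2) ℤ_[p] := MvPolynomial.X (.inr 0) with ha
  set b : MvPolynomial (Fin (m + 1) ⊕ Fin 2) ℤ_[p] := MvPolynomial.X (.inr 1) with hb
  have hab : a - b ≠ 0 := by
    rw [sub_ne_zero]
    intro h
    have := MvPolynomial.X_injective h
    simp at this
  have h : (gP c).eval a - (gP c).eval b = slP c * (a - b) := ((gP c).evalSubFactor a b).2
  obtain ⟨k, hk⟩ := (gP c).binomExpansion b (a - b)
  rw [add_sub_cancel] at hk
  have h2 : slP c = (gP c).derivative.eval b + k * (a - b) := by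
    have h3 : (slP c - ((gP c).derivative.eval b + k * (a - b))) * (a - b) = 0 := by
      rw [hk] at h
      linear_combination (-1 : MvPolynomial (Fin (m + 1) ⊕ Fin 2) ℤ_[p]) * h
    rcases mul_eq_zero.1 h3 with h4 | h4
    · exact sub_eq_zero.1 h4
    · exact absurd h4 hab
  have h5 : ev x z z ((gP c).derivative.eval b) = (psP c (aff x)).derivative.eval z := by
    have h6 : (psP c (aff x)).derivative = (gP c).derivative.map (ev x z z) := by
      rw [← map_gP c x z z, Polynomial.derivative_map]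
    have h7 := Polynomial.eval₂_hom (p := (gP c).derivative) (ev x z z) b
    rw [hb, ev_w, ← hb] at h7
    rw [h6, Polynomial.eval_map, h7]
  rw [h2, map_add, map_mul, map_sub, h5, ha, hb, ev_z, ev_w, sub_self, mul_zero, add_zero]

theorem norm_le_sub {x x' : Fin (m + 1) → ℤ_[p]} (z : ℤ_[p]) (P : MvPolynomial (Option (Fin (m + 1))) ℤ_[p]) :
    ‖MvPolynomial.eval (fun i => Option.elim i z x) P -
      MvPolynomial.eval (fun i => Option.elim i z x') P‖ ≤ ‖x - x'‖ := by
  refine (poly_lip_option P x x' z z).trans ?_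
  rw [sub_self, norm_zero]
  exact max_le le_rfl (norm_nonneg _)

/-- The local data. -/
noncomputable def loc (c : Ix m → ℤ_[p]) : Loc p (m + 1) where
  A u := Ah c (aff u)
  B u := 2 * Bh c (aff u)
  C u := Ch c (aff u)
  dA u := dP (AP c) u
  dB u := dP (BP c) u
  dC u := dP (CP c) u
  xi u z := vh c (yh c (aff u) z)
  psi u z := 2 * psh c (aff u) z
  kap u z := kah c (aff u) z
  sl u z w := 2 * ev u z w (slP c)
  hA x h := by
    rw [← eval_AP, ← eval_AP]
    exact dP_taylor _ _ _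
  hB x h := by
    rw [← eval_BP, ← eval_BP]
    exact dP_taylor _ _ _
  hC x h := by
    rw [← eval_CP, ← eval_CP]
    exact dP_taylor _ _ _
  hdA x h v := dP_lip _ _ _ _
  hdB x h v := dP_lip _ _ _ _
  hdC x h v := dP_lip _ _ _ _
  hxi x x' z z' := by
    refine (pi_norm_le_iff_of_nonneg (le_max_of_le_left (norm_nonneg _))).2 fun i => ?_
    rw [Pi.sub_apply, ← eval_xiP, ← eval_xiP]
    exact poly_lip_option _ _ _ _ _
  hpsi x x' z := by
    rw [← eval_psiP, ← eval_psiP]
    exact norm_le_sub _ _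
  hkap x x' z z' := by
    rw [← eval_kapP, ← eval_kapP]
    exact poly_lip_option _ _ _ _ _
  hsl x z w := by
    rw [← mul_sub, slP_spec]
    ring
  hsl' x x' z z' w w' := by
    rw [← mul_sub, norm_mul]
    calc ‖(2 : ℤ_[p])‖ * ‖ev x z w (slP c) - ev x' z' w' (slP c)‖
        ≤ 1 * max ‖x - x'‖ (max ‖z - z'‖ ‖w - w'‖) := by
          refine mul_le_mul (PadicInt.norm_le_one _) ?_ (norm_nonneg _) zero_le_one
          refine (poly_lip_sum (slP c) x x' ![z, w] ![z', w']).trans (max_le_max le_rfl ?_)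
          refine (pi_norm_le_iff_of_nonneg (le_max_of_le_left (norm_nonneg _))).2 fun i => ?_
          fin_cases i
          · simp
          · simp
      _ = _ := one_mul _

theorem loc_A (c : Ix m → ℤ_[p]) (u : V p (m + 1)) : (loc c).A u = Ah c (aff u) := rfl
theorem loc_B (c : Ix m → ℤ_[p]) (u : V p (m + 1)) : (loc c).B u = 2 * Bh c (aff u) := rfl
theorem loc_C (c : Ix m → ℤ_[p]) (u : V p (m + 1)) : (loc c).C u = Ch c (aff u) := rfl
theorem loc_xi (c : Ix m → ℤ_[p]) (u : V p (m + 1)) (z : ℤ_[p]) :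
    (loc c).xi u z = vh c (yh c (aff u) z) := rfl
theorem loc_psi (c : Ix m → ℤ_[p]) (u : V p (m + 1)) (z : ℤ_[p]) :
    (loc c).psi u z = 2 * psh c (aff u) z := rfl
theorem loc_kap (c : Ix m → ℤ_[p]) (u : V p (m + 1)) (z : ℤ_[p]) :
    (loc c).kap u z = kah c (aff u) z := rfl
theorem loc_sl (c : Ix m → ℤ_[p]) (u : V p (m + 1)) (z : ℤ_[p]) :
    (loc c).sl u z z = 2 * (psP c (aff u)).derivative.eval z := by
  rw [← slP_diag]
  rfl
theorem loc_dA (c : Ix m → ℤ_[p]) (u : V p (m + 1)) : (loc c).dA u = dP (AP c) u := rfl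
theorem loc_dB (c : Ix m → ℤ_[p]) (u : V p (m + 1)) : (loc c).dB u = dP (BP c) u := rfl
theorem loc_dC (c : Ix m → ℤ_[p]) (u : V p (m + 1)) : (loc c).dC u = dP (CP c) u := rfl

end Pool.Agent.Helper94.HN
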